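import Pool.Agent.K6.H92.GL.Soc

set_option autoImplicit false

/-!
# Dimension and height
-/

open MvPolynomial Module
open Pool.Agent.R688.GU (xbar mbar maxS typeR depthR IsCMR)

namespace Pool.Agent.K6.H92.GL

variable {k : Type} [Field k] {n : ℕ}

/-- the first `j` variables are replaced by zero -/
noncomputable def kil (k : Type) [Field k] (n j : ℕ) :
    MvPolynomial (Fin n) k →ₐ[k] MvPolynomial (Fin n) k :=
  aeval fun i => if (i : ℕ) < j then 0 else X i

theorem kil_X (j : ℕ) (i : Fin n) : kil k n j (X i) = if (i : ℕ) < j then 0 else X i := by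
  unfold kil; rw [aeval_X]

theorem kil_kil (j : ℕ) (f : MvPolynomial (Fin n) k) : kil k n (j + 1) (kil k n j f) =
    kil k n (j + 1) f := by
  have h : (kil k n (j + 1)).comp (kil k n j) = kil k n (j + 1) := by
    apply MvPolynomial.algHom_ext
    intro i
    rw [AlgHom.comp_apply, kil_X, kil_X]
    split_ifs with h1 h2 h2
    · rw [map_zero]
    · omega
    · rw [kil_X, if_pos h2]
    · rw [kil_X, if_neg h2]
  exact congrArg (fun φ => φ f) h

theorem le_height_ker (j : ℕ) (hj : j ≤ n) : (j : ℕ∞) ≤ (RingHom.ker (kil k n j)).height := by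
  induction j with
  | zero => simp
  | succ j ih =>
    have hp : (RingHom.ker (kil k n j)).IsPrime := RingHom.ker_isPrime _
    have hp' : (RingHom.ker (kil k n (j + 1))).IsPrime := RingHom.ker_isPrime _
    have hle : RingHom.ker (kil k n j) ≤ RingHom.ker (kil k n (j + 1)) := by
      intro f hf
      rw [RingHom.mem_ker] at hf ⊢
      rw [← kil_kil, hf, map_zero]
    have hlt : RingHom.ker (kil k n j) < RingHom.ker (kil k n (j + 1)) := by
      refine lt_of_le_of_ne hle fun h => ?_
      have h1 : (X (⟨j, hj⟩ : Fin n) : MvPolynomial (Fin n) k) ∈ RingHom.ker (kil k n (j + 1)) := by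
        rw [RingHom.mem_ker, kil_X, if_pos (Nat.lt_succ_self j)]
      rw [← h, RingHom.mem_ker, kil_X, if_neg (lt_irrefl j)] at h1
      exact X_ne_zero _ h1
    have h2 := Ideal.height_add_one_le_of_lt_of_isPrime hlt
    refine le_trans ?_ h2
    push_cast
    gcongr
    exact ih (by omega)

theorem kil_sub (P : Ideal (MvPolynomial (Fin n) k)) (h : ∀ i, X i ∈ P) (j : ℕ)
    (f : MvPolynomial (Fin n) k) : f - kil k n j f ∈ P := by
  induction f using MvPolynomial.induction_on with
  | C a =>
    have h2 : kil k n j (C a) = C a := by unfold kil; rw [algHom_C]; rfl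
    rw [h2, sub_self]
    exact Ideal.zero_mem _
  | add f g hf hg =>
    rw [map_add, add_sub_add_comm]
    exact Ideal.add_mem _ hf hg
  | mul_X f i _ =>
    rw [map_mul, kil_X]
    refine Ideal.sub_mem _ (Ideal.mul_mem_left _ _ (h i)) ?_
    split_ifs
    · rw [mul_zero]; exact Ideal.zero_mem _
    · exact Ideal.mul_mem_left _ _ (h i)

theorem le_height_of (I : Ideal (MvPolynomial (Fin n) k)) (e : ℕ)
    (h : ∀ i, (X i : MvPolynomial (Fin n) k) ^ e ∈ I) : (n : ℕ∞) ≤ I.height := by
  rw [Ideal.height_eq_inf_minimalPrimes]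
  refine le_iInf₂ fun P hP => ?_
  have hPr : P.IsPrime := hP.1.1
  have hX : ∀ i, (X i : MvPolynomial (Fin n) k) ∈ P := fun i => hPr.mem_of_pow_mem e (hP.1.2 (h i))
  have hle : RingHom.ker (kil k n n) ≤ P := by
    intro f hf
    have h1 := kil_sub P hX n f
    rw [RingHom.mem_ker] at hf
    rwa [hf, sub_zero] at h1
  exact le_trans (le_height_ker n le_rfl) (Ideal.height_mono hle)

theorem height_le (I : Ideal (MvPolynomial (Fin n) k)) (h : I ≤ maxS k n) : I.height ≤ n := by
  have hne : maxS k n ≠ ⊤ := by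
    rw [Ne, Ideal.eq_top_iff_one]
    intro h1
    have h2 : (1 : MvPolynomial (Fin n) k) ∈ idealOfVars (Fin n) k ^ 1 := by
      rw [pow_one]
      exact h1
    rw [mem_pow_idealOfVars_iff'] at h2
    have h3 := h2 0 (by simp)
    rw [coeff_zero_one] at h3
    exact one_ne_zero h3
  refine le_trans (Ideal.height_mono h) (le_trans (Ideal.height_le_spanFinrank _ hne) ?_)
  rw [Nat.cast_le]
  unfold maxS
  refine le_trans (Submodule.spanFinrank_span_le_ncard_of_finite (Set.finite_range _)) ?_
  rw [← Set.image_univ]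
  refine le_trans (Set.ncard_image_le Set.finite_univ) ?_
  simp

theorem dim_zero (I : Ideal (MvPolynomial (Fin n) k)) (e : ℕ)
    (h : ∀ i, (X i : MvPolynomial (Fin n) k) ^ e ∈ I)
    (hnt : Nontrivial (MvPolynomial (Fin n) k ⧸ I)) :
    ringKrullDim (MvPolynomial (Fin n) k ⧸ I) = 0 := by
  rw [← ringKrullDimZero_iff_ringKrullDim_eq_zero, Ring.krullDimLE_zero_iff]
  intro P hP
  have hx : ∀ i, xbar I i ∈ P := by
    intro i
    apply hP.mem_of_pow_mem e
    have : xbar I i ^ e = 0 := by
      change Ideal.Quotient.mk I (X i) ^ e = 0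
      rw [← map_pow]
      exact Ideal.Quotient.eq_zero_iff_mem.2 (h i)
    rw [this]
    exact Ideal.zero_mem _
  refine ⟨⟨hP.ne_top, fun L hL => ?_⟩⟩
  obtain ⟨r, hrL, hrP⟩ := Set.exists_of_ssubset hL
  obtain ⟨F, rfl⟩ := Ideal.Quotient.mk_surjective r
  have h1 : Ideal.Quotient.mk I (F - C (coeff 0 F)) ∈ P := by
    have h3 : maxS k n ≤ P.comap (Ideal.Quotient.mk I) := by
      unfold maxS
      rw [Ideal.span_le]
      rintro _ ⟨i, rfl⟩
      exact hx i
    exact h3 (sub_const_mem F)
  have h2 : coeff 0 F ≠ 0 := by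
    intro h
    rw [h, map_zero, sub_zero] at h1
    exact hrP h1
  have h3 : Ideal.Quotient.mk I (C (coeff 0 F)) ∈ L := by
    have h4 := L.sub_mem hrL (hL.le h1)
    rwa [← map_sub, sub_sub_cancel] at h4
  rw [Ideal.eq_top_iff_one]
  have h4 := L.mul_mem_left (Ideal.Quotient.mk I (C (coeff 0 F)⁻¹)) h3
  rwa [← map_mul, ← C_mul, inv_mul_cancel₀ h2, C_1, map_one] at h4

end Pool.Agent.K6.H92.GL
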