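import Pool.Agent.R688.GU.Typ

set_option autoImplicit false
set_option backward.isDefEq.respectTransparency.types true

/-!
# The exact type of an artinian ring
-/

open CategoryTheory MvPolynomial
open Pool.Agent.R688.GU

namespace Pool.Agent.K6.H92.GL

section generic

variable {R : Type} [CommRing R] {J : Ideal R}

theorem length_hom_eq (h1 : Module.length R (R ⧸ J) = 1) {m : ℕ} (u : Fin m → R)
    (hu : ∀ i, ∀ j ∈ J, j • u i = 0)
    (hs : ∀ r : R, (∀ j ∈ J, j • r = 0) → ∃ c : Fin m → R, r = ∑ i, c i * u i)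
    (hi : ∀ c : Fin m → R, ∑ i, c i * u i = 0 → ∀ i, c i ∈ J) :
    Module.length R ((R ⧸ J) →ₗ[R] R) = m := by
  have hu' : ∀ i, ∀ j ∈ J, j • socHom (hu i) = 0 := by
    intro i j hj
    apply hom_ext'
    change j • socHom (hu i) (Ideal.Quotient.mk J 1) = 0
    rw [socHom_mk, one_smul, hu i j hj]
  let θ : (Fin m → R ⧸ J) →ₗ[R] ((R ⧸ J) →ₗ[R] R) :=
    ∑ i, (socHom (hu' i)).comp (LinearMap.proj i)
  have hθ : Function.Surjective θ := by
    intro f
    have h2 : ∀ j ∈ J, j • f (Ideal.Quotient.mk J 1) = 0 := by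
      intro j hj
      rw [← map_smul]
      have h3 : j • (Ideal.Quotient.mk J 1) = 0 := by
        rw [← Ideal.Quotient.eq_zero_iff_mem.2 hj]
        change Ideal.Quotient.mk J (j * 1) = _
        rw [mul_one]
      rw [h3, map_zero]
    obtain ⟨c, hc⟩ := hs _ h2
    refine ⟨fun i => Ideal.Quotient.mk _ (c i), ?_⟩
    apply hom_ext'
    rw [hc]
    simp only [θ, LinearMap.sum_apply, LinearMap.comp_apply, LinearMap.proj_apply, socHom_mk,
      LinearMap.smul_apply, one_mul, smul_eq_mul]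
  have hθi : Function.Injective θ := by
    rw [← LinearMap.ker_eq_bot, LinearMap.ker_eq_bot']
    intro c hc
    choose b hb using fun i => Ideal.Quotient.mk_surjective (c i)
    have h2 : θ c (Ideal.Quotient.mk J 1) = ∑ i, b i * u i := by
      simp only [θ, LinearMap.sum_apply, LinearMap.comp_apply, LinearMap.proj_apply]
      refine Finset.sum_congr rfl fun i _ => ?_
      rw [← hb i, socHom_mk, LinearMap.smul_apply, socHom_mk, one_smul, smul_eq_mul]
    rw [hc, LinearMap.zero_apply] at h2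
    funext i
    rw [← hb i]
    exact Ideal.Quotient.eq_zero_iff_mem.2 (hi b h2.symm i)
  rw [← (LinearEquiv.ofBijective θ ⟨hθi, hθ⟩).length_eq, Module.length_pi, h1]
  simp

end generic

section generic2

variable {R : Type} [CommRing R] {J : Ideal R}

theorem typeJ_eq (h1 : Module.length R (R ⧸ J) = 1) {m : ℕ} (u : Fin m → R)
    (hu : ∀ i, ∀ j ∈ J, j • u i = 0) (h0 : ∃ i, u i ≠ 0)
    (hs : ∀ r : R, (∀ j ∈ J, j • r = 0) → ∃ c : Fin m → R, r = ∑ i, c i * u i)
    (hi : ∀ c : Fin m → R, ∑ i, c i * u i = 0 → ∀ i, c i ∈ J) :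
    typeJ R J = m := by
  obtain ⟨j, hj⟩ := h0
  unfold typeJ
  rw [depthJ_eq_zero (hu j) hj, ext0.length_eq]
  exact length_hom_eq h1 u hu hs hi

end generic2

variable {k : Type} [Field k] {n : ℕ} {I : Ideal (MvPolynomial (Fin n) k)}

/-- the exact type -/
theorem typeR_eq {m : ℕ} (u : Fin m → MvPolynomial (Fin n) k ⧸ I)
    (hu : ∀ j i, u j * xbar I i = 0) (h0 : ∃ j, u j ≠ 0)
    (hs : ∀ r : MvPolynomial (Fin n) k ⧸ I, (∀ i, r * xbar I i = 0) →
      ∃ c : Fin m → MvPolynomial (Fin n) k ⧸ I, r = ∑ j, c j * u j)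
    (hi : ∀ c : Fin m → MvPolynomial (Fin n) k ⧸ I, ∑ i, c i * u i = 0 → ∀ i, c i ∈ mbar I) :
    typeR I = m := by
  have hne : mbar I ≠ ⊤ := by
    intro h
    obtain ⟨j, hj⟩ := h0
    apply hj
    have h1 := (killed_iff (u j)).2 (hu j) 1 (by rw [h]; exact Submodule.mem_top)
    rwa [one_smul] at h1
  have h1 : Module.length (MvPolynomial (Fin n) k ⧸ I)
      ((MvPolynomial (Fin n) k ⧸ I) ⧸ mbar I) = 1 := by
    refine le_antisymm length_resField ?_
    rw [ENat.one_le_iff_ne_zero]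
    intro h2
    rw [Module.length_eq_zero_iff] at h2
    exact hne (Ideal.Quotient.subsingleton_iff.1 h2)
  exact typeJ_eq h1 u (fun i => (killed_iff _).2 (hu i)) h0
    (fun r hr => hs r ((killed_iff _).1 hr)) hi

end Pool.Agent.K6.H92.GL
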