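import Pool.Agent.K6.H92.GL.Gol
import Pool.Agent.K6.H92.GL.Dim
import Pool.Agent.K6.H92.GL.Typ2

set_option autoImplicit false

/-!
# Ideals with prescribed socle
-/

open MvPolynomial Module
open Pool.Agent.R688.GU (xbar mbar maxS typeR depthR IsCMR IsHomog IsGolod)

namespace Pool.Agent.K6.H92.GL

variable {k : Type} [Field k] {n : ℕ}

/-- the ideal of all `f` such that the components of degree `D` of the multiples of `f` are
in `W` -/
noncomputable def Wid (D : ℕ) (W : Submodule k (MvPolynomial (Fin n) k)) :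
    Ideal (MvPolynomial (Fin n) k) where
  carrier := {f | ∀ g, homogeneousComponent D (f * g) ∈ W}
  add_mem' {a b} ha hb g := by
    rw [add_mul, map_add]
    exact W.add_mem (ha g) (hb g)
  zero_mem' g := by
    rw [zero_mul, map_zero]
    exact W.zero_mem
  smul_mem' c f hf g := by
    have h := hf (c * g)
    rw [smul_eq_mul, mul_comm c f, mul_assoc]
    exact h

theorem mem_Wid {D : ℕ} {W : Submodule k (MvPolynomial (Fin n) k)} {f : MvPolynomial (Fin n) k} :
    f ∈ Wid D W ↔ ∀ g, homogeneousComponent D (f * g) ∈ W := Iff.rfl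

theorem Wid_homog (D : ℕ) (W : Submodule k (MvPolynomial (Fin n) k)) : IsHomog (Wid D W) := by
  intro f hf e
  rw [mem_Wid] at hf ⊢
  intro g
  rw [hc_mul_hom (homogeneousComponent_isHomogeneous e f)]
  split_ifs with h
  · have h1 := hf (homogeneousComponent (D - e) g)
    rwa [mul_comm f, hc_mul_hom (homogeneousComponent_isHomogeneous _ g),
      if_pos (by omega), show D - (D - e) = e by omega, mul_comm] at h1
  · exact W.zero_mem

theorem hc_of_mem {D : ℕ} {W : Submodule k (MvPolynomial (Fin n) k)} {f : MvPolynomial (Fin n) k}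
    (hf : f ∈ Wid D W) : homogeneousComponent D f ∈ W := by
  have h := hf 1
  rwa [mul_one] at h

theorem Wid_of_hc {D : ℕ} {W : Submodule k (MvPolynomial (Fin n) k)}
    {f : MvPolynomial (Fin n) k} (hf : ∀ e < D + 1, homogeneousComponent e f = 0) :
    f ∈ Wid D W := by
  intro g
  rw [hc_mul, Finset.sum_eq_zero]
  · exact W.zero_mem
  · intro e he
    rw [Finset.mem_range] at he
    rw [hf e he, zero_mul]

theorem Wid_kill {D : ℕ} {W : Submodule k (MvPolynomial (Fin n) k)} {u : MvPolynomial (Fin n) k}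
    (hu : u.IsHomogeneous D) (i : Fin n) : X i * u ∈ Wid D W := by
  refine Wid_of_hc fun e he => ?_
  have h1 := (isHomogeneous_X k i).mul hu
  rw [homogeneousComponent_of_mem h1, if_neg (by omega)]

/-- an element whose products with the variables are in the ideal and whose component of degree
`D` is in `W` is in the ideal -/
theorem Wid_of_kill {D : ℕ} {W : Submodule k (MvPolynomial (Fin n) k)} {G : MvPolynomial (Fin n) k}
    (h : ∀ i, X i * G ∈ Wid D W) (hG : homogeneousComponent D G ∈ W) : G ∈ Wid D W := by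
  intro g
  have h1 : G * (g - C (coeff 0 g)) ∈ Wid D W := by
    have h2 : ∀ x ∈ maxS k n, G * x ∈ Wid D W := by
      intro x hx
      unfold maxS at hx
      induction hx using Submodule.span_induction with
      | mem w hw =>
        obtain ⟨i, rfl⟩ := hw
        rw [mul_comm]
        exact h i
      | zero => rw [mul_zero]; exact Ideal.zero_mem _
      | add a b _ _ ha hb => rw [mul_add]; exact Ideal.add_mem _ ha hb
      | smul c a _ ha =>
        rw [smul_eq_mul, mul_left_comm]
        exact Ideal.mul_mem_left _ _ ha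
    exact h2 _ (sub_const_mem g)
  have h2 : G * g = G * (g - C (coeff 0 g)) + coeff 0 g • G := by
    rw [smul_eq_C_mul]
    ring
  rw [h2, map_add, map_smul]
  exact W.add_mem (hc_of_mem h1) (W.smul_mem _ hG)

/-- the component of degree `D` of a multiple of a form of degree `D` -/
theorem hc_mul_top {D : ℕ} {u : MvPolynomial (Fin n) k} (hu : u.IsHomogeneous D)
    (b : MvPolynomial (Fin n) k) : homogeneousComponent D (b * u) = coeff 0 b • u := by
  rw [mul_comm, hc_mul_hom hu, if_pos le_rfl, Nat.sub_self, homogeneousComponent_zero,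
    smul_eq_C_mul, mul_comm]

/-- the type of the quotient -/
theorem Wid_type {D t : ℕ} {W : Submodule k (MvPolynomial (Fin n) k)} (ht : 0 < t)
    (u : Fin t → MvPolynomial (Fin n) k) (hu : ∀ j, (u j).IsHomogeneous D)
    (hs : ∀ f : MvPolynomial (Fin n) k, f.IsHomogeneous D → ∃ c : Fin t → k,
      f - ∑ j, c j • u j ∈ W)
    (hi : ∀ c : Fin t → k, ∑ j, c j • u j ∈ W → ∀ j, c j = 0) :
    typeR (Wid D W) = t ∧ depthR (Wid D W) = 0 ∧
      Nontrivial (MvPolynomial (Fin n) k ⧸ Wid D W) := by
  classical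
  have hk : ∀ j i, Ideal.Quotient.mk (Wid D W) (u j) * xbar (Wid D W) i = 0 := by
    intro j i
    change Ideal.Quotient.mk (Wid D W) (u j) * Ideal.Quotient.mk (Wid D W) (X i) = 0
    rw [← map_mul, mul_comm, Ideal.Quotient.eq_zero_iff_mem]
    exact Wid_kill (hu j) i
  have hne : Ideal.Quotient.mk (Wid D W) (u ⟨0, ht⟩) ≠ 0 := by
    rw [Ne, Ideal.Quotient.eq_zero_iff_mem]
    intro h1
    have h2 := hc_of_mem h1
    rw [homogeneousComponent_eq_self (hu _)] at h2
    have h3 := hi (Pi.single ⟨0, ht⟩ 1) (by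
      rw [Finset.sum_eq_single (⟨0, ht⟩ : Fin t)]
      · rw [Pi.single_eq_same, one_smul]
        exact h2
      · intro j _ hj
        rw [Pi.single_eq_of_ne hj, zero_smul]
      · intro h
        exact absurd (Finset.mem_univ _) h) ⟨0, ht⟩
    rw [Pi.single_eq_same] at h3
    exact one_ne_zero h3
  refine ⟨?_, R688.GU.depthR_eq_zero (hk ⟨0, ht⟩) hne, ⟨_, _, hne⟩⟩
  refine typeR_eq (fun j => Ideal.Quotient.mk (Wid D W) (u j)) hk ⟨_, hne⟩ ?_ ?_
  · intro r hr
    obtain ⟨F, rfl⟩ := Ideal.Quotient.mk_surjective r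
    have h1 : ∀ i, X i * F ∈ Wid D W := by
      intro i
      rw [← Ideal.Quotient.eq_zero_iff_mem, map_mul, mul_comm]
      exact hr i
    obtain ⟨c, hc⟩ := hs _ (homogeneousComponent_isHomogeneous D F)
    refine ⟨fun j => Ideal.Quotient.mk _ (C (c j)), ?_⟩
    have h2 : F - ∑ j, C (c j) * u j ∈ Wid D W := by
      refine Wid_of_kill (fun i => ?_) ?_
      · rw [mul_sub, Finset.mul_sum]
        refine Ideal.sub_mem _ (h1 i) (Ideal.sum_mem _ fun j _ => ?_)
        rw [mul_left_comm]
        exact Ideal.mul_mem_left _ _ (Wid_kill (hu j) i)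
      · rw [map_sub, map_sum]
        have h3 : ∀ j, homogeneousComponent D (C (c j) * u j) = c j • u j := by
          intro j
          rw [hc_mul_top (hu j), coeff_C, if_pos rfl]
        simp_rw [h3]
        exact hc
    have h3 := Ideal.Quotient.eq_zero_iff_mem.2 h2
    rw [map_sub, map_sum, sub_eq_zero] at h3
    rw [h3]
    exact Finset.sum_congr rfl fun j _ => map_mul _ _ _
  · intro c hc j
    choose b hb using fun j => Ideal.Quotient.mk_surjective (c j)
    have h1 : ∑ j, b j * u j ∈ Wid D W := by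
      rw [← Ideal.Quotient.eq_zero_iff_mem, map_sum, ← hc]
      refine Finset.sum_congr rfl fun j _ => ?_
      rw [map_mul, hb j]
    have h2 := hc_of_mem h1
    rw [map_sum] at h2
    simp_rw [hc_mul_top (hu _)] at h2
    have h3 := hi _ h2 j
    have h4 := sub_const_mem (b j)
    rw [h3, map_zero, sub_zero] at h4
    rw [← hb j]
    have h5 : maxS k n ≤ (mbar (Wid D W)).comap (Ideal.Quotient.mk (Wid D W)) := by
      unfold maxS
      rw [Ideal.span_le]
      rintro _ ⟨i, rfl⟩
      exact Ideal.subset_span ⟨i, rfl⟩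
    exact h5 h4

theorem exists_sub {V : Type} [AddCommGroup V] [Module k V] [FiniteDimensional k V]
    (K : Submodule k V) (t : ℕ) (h1 : t ≤ finrank k V) (h2 : finrank k V - t ≤ finrank k K) :
    ∃ W : Submodule k V, W ≤ K ∧ finrank k (V ⧸ W) = t := by
  obtain ⟨f, hf⟩ := exists_linearIndependent_of_le_finrank h2
  have h3 : LinearIndependent k fun i => (f i).1 := hf.map' K.subtype (Submodule.ker_subtype _)
  refine ⟨Submodule.span k (Set.range fun i => (f i).1), ?_, ?_⟩
  · rw [Submodule.span_le]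
    rintro _ ⟨i, rfl⟩
    exact (f i).2
  · have h4 := Submodule.finrank_quotient_add_finrank
      (Submodule.span k (Set.range fun i => (f i).1))
    rw [finrank_span_eq_card h3, Fintype.card_fin] at h4
    omega

/-- the subspace which defines the ideal -/
theorem exists_W [Infinite k] {d t : ℕ} (hd : 2 ≤ d) (hn : 2 ≤ n) (h : n ≤ d + 1) (ht : 2 ≤ t)
    (htd : t ≤ 2 * d) : ∃ W : Submodule k (MvPolynomial (Fin n) k),
    (∃ (N : ℕ) (P Q : Fin N → Fin n → k), Good d N P Q ∧ Wid (2 * d - 1) W ≤ Idl d P Q) ∧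
    ∃ u : Fin t → MvPolynomial (Fin n) k, (∀ j, (u j).IsHomogeneous (2 * d - 1)) ∧
      (∀ f : MvPolynomial (Fin n) k, f.IsHomogeneous (2 * d - 1) → ∃ c : Fin t → k,
        f - ∑ j, c j • u j ∈ W) ∧
      ∀ c : Fin t → k, ∑ j, c j • u j ∈ W → ∀ j, c j = 0 := by
  obtain ⟨N, P, Q, hPQ⟩ := exists_good (k := k) (n := n) hd hn h
  set V := Fo k n (2 * d - 1) with hV
  have hM : t ≤ finrank k V := by
    rw [hV, finrank_Fo]
    refine le_trans htd ?_
    have h1 : (2 * d).choose (2 * d - 1) ≤ (n + (2 * d - 1) - 1).choose (2 * d - 1) :=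
      Nat.choose_le_choose _ (by omega)
    refine le_trans (le_of_eq ?_) h1
    obtain ⟨m, hm⟩ : ∃ m, 2 * d = m + 1 := ⟨2 * d - 1, by omega⟩
    rw [hm, Nat.add_sub_cancel, Nat.choose_succ_self_right]
  let φ : V →ₗ[k] k × k := ((phi P (2 * d - 1)).comp V.subtype).prod
    ((phi Q (2 * d - 1)).comp V.subtype)
  have hK : finrank k V - 2 ≤ finrank k (LinearMap.ker φ) := by
    have h1 := LinearMap.finrank_range_add_finrank_ker φ
    have h2 : finrank k (LinearMap.range φ) ≤ 2 := by
      refine le_trans (Submodule.finrank_le _) ?_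
      rw [Module.finrank_prod, Module.finrank_self]
    omega
  obtain ⟨W', hW'3, hW'2⟩ := exists_sub (LinearMap.ker φ) t hM (by omega)
  obtain ⟨b⟩ : Nonempty (Basis (Fin t) k (V ⧸ W')) := ⟨Module.finBasisOfFinrankEq k (V ⧸ W') hW'2⟩
  choose u hu using fun j => Submodule.mkQ_surjective W' (b j)
  refine ⟨W'.map V.subtype, ⟨N, P, Q, hPQ, ?_⟩, fun j => (u j).1, fun j => (u j).2, ?_, ?_⟩
  · intro F hF g
    obtain ⟨w, hw, hwF⟩ := Submodule.mem_map.1 (hF g)
    have h1 := hW'3 hw
    rw [LinearMap.mem_ker] at h1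
    have h2 : phi P (2 * d - 1) w.1 = 0 := congrArg Prod.fst h1
    have h3 : phi Q (2 * d - 1) w.1 = 0 := congrArg Prod.snd h1
    have h4 : w.1 = homogeneousComponent (2 * d - 1) (F * g) := hwF
    have h5 : ∀ R : Fin N → Fin n → k, phi R (2 * d - 1) w.1 = phi R (2 * d - 1) (F * g) := by
      intro R
      rw [phi_apply, phi_apply, h4, homogeneousComponent_eq_self
        (homogeneousComponent_isHomogeneous (2 * d - 1) (F * g))]
    rw [← h5, ← h5]
    exact ⟨h2, h3⟩
  · intro F hF
    obtain ⟨F', hF'⟩ : ∃ F' : V, F'.1 = F := ⟨⟨F, hF⟩, rfl⟩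
    obtain ⟨c, hc⟩ : ∃ c : Fin t → k, c = fun j => b.repr (W'.mkQ F') j := ⟨_, rfl⟩
    refine ⟨c, ?_⟩
    rw [Submodule.mem_map]
    refine ⟨F' - ∑ j, c j • u j, ?_, ?_⟩
    · have h1 : W'.mkQ (F' - ∑ j, c j • u j) = 0 := by
        rw [map_sub, map_sum]
        simp_rw [map_smul, hu]
        rw [hc, b.sum_repr, sub_self]
      rwa [← LinearMap.mem_ker, Submodule.ker_mkQ] at h1
    · rw [← hF']
      simp
  · intro c hc j
    obtain ⟨w, hw, hwF⟩ := Submodule.mem_map.1 hc
    have h1 : w = ∑ j, c j • u j := by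
      apply Subtype.ext
      rw [Submodule.subtype_apply] at hwF
      rw [hwF]
      simp
    rw [h1, ← Submodule.ker_mkQ W', LinearMap.mem_ker, map_sum] at hw
    simp_rw [map_smul, hu] at hw
    exact Fintype.linearIndependent_iff.1 b.linearIndependent c hw j

end Pool.Agent.K6.H92.GL
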