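import Pool.Agent.K6.H92.GL.Koz

set_option autoImplicit false

/-!
# The Golod property
-/

open MvPolynomial Module
open Pool.Agent.R688.GU (Kos kd sgn IsHom xbar maxS IsGolod PosCycle isGolod_of)

namespace Pool.Agent.K6.H92.GL

variable {k : Type} [Field k] {n : ℕ}

/-- Löfwall's criterion: an ideal `I` without nonzero components of degree at most `d` which
contains all the elements of degree at least `2 d` defines a Golod ring. -/
theorem golod_of [CharZero k] (I : Ideal (MvPolynomial (Fin n) k)) (d : ℕ)
    (h1 : ∀ f ∈ I, ∀ e ≤ d, homogeneousComponent e f = 0)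
    (h2 : ∀ f : MvPolynomial (Fin n) k, (∀ e < 2 * d, homogeneousComponent e f = 0) → f ∈ I) :
    IsGolod (xbar I) := by
  classical
  have hmk : ∀ f : MvPolynomial (Fin n) k, f ∈ maxS k n ^ (2 * d) → f ∈ I := by
    intro f hf
    refine h2 f fun e he => ?_
    apply homogeneousComponent_eq_zero'
    intro c hc
    have h3 := (mem_pow_idealOfVars_iff (2 * d) f).1 hf c hc
    omega
  refine isGolod_of _ (𝔞 := (maxS k n ^ d).map (Ideal.Quotient.mk I)) ?_ fun z => ?_
  · rw [← Ideal.map_mul, ← pow_add, ← two_mul, eq_bot_iff, Ideal.map_le_iff_le_comap]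
    intro f hf
    rw [Ideal.mem_comap, Ideal.mem_bot, Ideal.Quotient.eq_zero_iff_mem]
    exact hmk f hf
  · obtain ⟨r, a, hr, ha, hc⟩ := z
    change ∃ b, IsHom b (r + 1) ∧ ∀ s, (a - kd (xbar I) b) s ∈ _
    choose A hA using fun s => Ideal.Quotient.mk_surjective (I := I) (a s)
    let Z : Kos (MvPolynomial (Fin n) k) n := fun s => if s.card = r then A s else 0
    have hZ : ∀ s, Ideal.Quotient.mk I (Z s) = a s := by
      intro s
      by_cases h : s.card = r
      · simp only [Z, if_pos h]
        exact hA s
      · simp only [Z, if_neg h, map_zero]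
        by_contra h3
        exact h (ha s fun h4 => h3 h4.symm)
    have hZr : IsHom Z r := by
      intro s hs
      by_contra h
      exact hs (if_neg h)
    have hdZ : ∀ s, kd X Z s ∈ I := by
      intro s
      rw [← Ideal.Quotient.eq_zero_iff_mem, ← kd_map]
      have h3 : (fun t => Ideal.Quotient.mk I (Z t)) = a := funext hZ
      rw [h3]
      exact congrFun hc s
    have hcyc : ∀ e < d, kd X (comp e Z) = 0 := by
      intro e he
      funext s
      rw [kd_comp]
      exact h1 _ (hdZ s) (e + 1) (by omega)
    have hcr : ∀ e, IsHom (comp e Z) r := by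
      intro e s hs
      refine hZr s fun h => hs ?_
      unfold comp
      rw [h, map_zero]
    -- the element whose boundary is the part of small degree
    let B : Kos (MvPolynomial (Fin n) k) n := fun s => ∑ e ∈ Finset.range d,
      C ((e + r : ℕ) : k)⁻¹ * dR (comp e Z) s
    have hB : IsHom B (r + 1) := by
      intro s hs
      obtain ⟨e, _, he⟩ := Finset.exists_ne_zero_of_sum_ne_zero hs
      refine dR_hom (hcr e) s fun h => he ?_
      rw [h, mul_zero]
    have hdB : ∀ s, kd X B s = ∑ e ∈ Finset.range d, comp e Z s := by
      intro s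
      have h3 := congrFun (kd_sum (X : Fin n → MvPolynomial (Fin n) k) (Finset.range d)
        (fun e s => C ((e + r : ℕ) : k)⁻¹ * dR (comp e Z) s)) s
      change kd X B s = _ at h3
      rw [h3]
      refine Finset.sum_congr rfl fun e he => ?_
      rw [Finset.mem_range] at he
      rw [congrFun (kd_mul X (C ((e + r : ℕ) : k)⁻¹) (dR (comp e Z))) s]
      have h4 := homotopy (a := comp e Z) (e := e)
        (fun t => homogeneousComponent_isHomogeneous e (Z t)) s
      have h5 : dR (kd X (comp e Z)) s = 0 := by
        rw [hcyc e he]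
        unfold dR
        refine Finset.sum_eq_zero fun l _ => ?_
        rw [Pi.zero_apply, map_zero, smul_zero]
      rw [h5, add_zero] at h4
      rw [h4]
      by_cases h6 : s.card = r
      · rw [h6, nsmul_eq_mul, ← mul_assoc]
        have h7 : ((e + r : ℕ) : MvPolynomial (Fin n) k) = C ((e + r : ℕ) : k) := by
          rw [map_natCast]
        rw [h7, ← C_mul, inv_mul_cancel₀, C_1, one_mul]
        rw [Nat.cast_ne_zero]
        omega
      · have h7 : comp e Z s = 0 := by
          by_contra h8
          exact h6 (hcr e s h8)
        rw [h7, smul_zero, mul_zero]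
    refine ⟨fun s => Ideal.Quotient.mk I (B s), ?_, fun s => ?_⟩
    · intro s hs
      refine hB s fun h => hs ?_
      change Ideal.Quotient.mk I (B s) = 0
      rw [h, map_zero]
    · have h3 : kd (xbar I) (fun s => Ideal.Quotient.mk I (B s)) s =
          Ideal.Quotient.mk I (kd X B s) := kd_map (Ideal.Quotient.mk I) X B s
      rw [Pi.sub_apply, h3, ← hZ s, ← map_sub]
      refine Ideal.mem_map_of_mem _ ?_
      rw [hdB s]
      change _ ∈ idealOfVars (Fin n) k ^ d
      rw [mem_pow_idealOfVars_iff']
      intro c hc
      rw [coeff_sub, coeff_sum]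
      have h4 : ∀ e ∈ Finset.range d, coeff c (comp e Z s) =
          if e = c.degree then coeff c (Z s) else 0 := by
        intro e _
        unfold comp
        rw [coeff_homogeneousComponent]
        by_cases h5 : c.degree = e
        · rw [if_pos h5, if_pos h5.symm]
        · rw [if_neg h5, if_neg (fun h => h5 h.symm)]
      rw [Finset.sum_congr rfl h4, Finset.sum_ite_eq', if_pos (Finset.mem_range.2 hc), sub_self]

end Pool.Agent.K6.H92.GL
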