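import Pool.Agent.K6.H92.GL.Pts
import Pool.Agent.R688.GU.Defs

set_option autoImplicit false

/-!
# The ideal of the forms annihilating two functionals
-/

open MvPolynomial Module

namespace Pool.Agent.K6.H92.GL

variable {k : Type} [Field k] {n : ℕ}

theorem hc_mul_hom {e D : ℕ} {p : MvPolynomial (Fin n) k} (hp : p.IsHomogeneous e)
    (g : MvPolynomial (Fin n) k) :
    homogeneousComponent D (p * g) = if e ≤ D then p * homogeneousComponent (D - e) g else 0 := by
  have h1 : ∀ b, homogeneousComponent D (p * homogeneousComponent b g) =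
      if D = e + b then p * homogeneousComponent b g else 0 := fun b =>
    homogeneousComponent_of_mem (hp.mul (homogeneousComponent_isHomogeneous b g))
  conv_lhs => rw [← sum_homogeneousComponent g, Finset.mul_sum, map_sum]
  simp_rw [h1]
  split_ifs with h
  · by_cases h2 : D - e < g.totalDegree + 1
    · rw [Finset.sum_eq_single (D - e)]
      · rw [if_pos (by omega)]
      · intro b _ hb
        rw [if_neg (by omega)]
      · intro h3
        exact absurd (Finset.mem_range.2 h2) h3
    · rw [homogeneousComponent_eq_zero _ _ (show g.totalDegree < D - e by omega), mul_zero]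
      refine Finset.sum_eq_zero fun b hb => ?_
      rw [Finset.mem_range] at hb
      rw [if_neg (by omega)]
  · refine Finset.sum_eq_zero fun b hb => ?_
    rw [if_neg (by omega)]

theorem hc_mul (D : ℕ) (f g : MvPolynomial (Fin n) k) :
    homogeneousComponent D (f * g) =
      ∑ e ∈ Finset.range (D + 1), homogeneousComponent e f * homogeneousComponent (D - e) g := by
  conv_lhs => rw [← sum_homogeneousComponent f, Finset.sum_mul, map_sum]
  simp_rw [hc_mul_hom (homogeneousComponent_isHomogeneous _ f) g]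
  rw [← Finset.sum_filter]
  have h1 : ∀ e ∈ Finset.range (D + 1), e ∉ (Finset.range (f.totalDegree + 1)).filter (· ≤ D) →
      homogeneousComponent e f * homogeneousComponent (D - e) g = 0 := by
    intro e he he2
    rw [Finset.mem_filter, Finset.mem_range] at he2
    rw [Finset.mem_range] at he
    rw [homogeneousComponent_eq_zero _ _ (show f.totalDegree < e by omega), zero_mul]
  refine Finset.sum_subset (fun e he => ?_) h1
  rw [Finset.mem_filter] at he
  rw [Finset.mem_range]
  omega

/-- the functional given by the values at the points of the component of degree `D` -/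
noncomputable def phi {N : ℕ} (P : Fin N → Fin n → k) (D : ℕ) : MvPolynomial (Fin n) k →ₗ[k] k :=
  ∑ i, (evp (P i)).comp (homogeneousComponent D)

theorem phi_apply {N : ℕ} (P : Fin N → Fin n → k) (D : ℕ) (f : MvPolynomial (Fin n) k) :
    phi P D f = ∑ i, evp (P i) (homogeneousComponent D f) := by
  unfold phi
  rw [LinearMap.sum_apply]
  rfl

theorem phi_mul {N : ℕ} (P : Fin N → Fin n → k) {a b : ℕ} {f g : MvPolynomial (Fin n) k}
    (hf : f.IsHomogeneous a) (hg : g.IsHomogeneous b) :
    phi P (a + b) (f * g) = ∑ i, evp (P i) f * evp (P i) g := by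
  rw [phi_apply]
  rw [homogeneousComponent_eq_self (hf.mul hg)]
  simp_rw [evp_mul]

/-- the ideal of all `f` such that both functionals vanish on the multiples of `f` -/
noncomputable def Idl {N : ℕ} (d : ℕ) (P Q : Fin N → Fin n → k) : Ideal (MvPolynomial (Fin n) k) where
  carrier := {f | ∀ g, phi P (2 * d - 1) (f * g) = 0 ∧ phi Q (2 * d - 1) (f * g) = 0}
  add_mem' {a b} ha hb g := by
    rw [add_mul, map_add, map_add, (ha g).1, (hb g).1, (ha g).2, (hb g).2, add_zero]
    exact ⟨rfl, rfl⟩
  zero_mem' g := by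
    rw [zero_mul, map_zero, map_zero]
    exact ⟨rfl, rfl⟩
  smul_mem' c f hf g := by
    have h := hf (c * g)
    rw [smul_eq_mul, mul_comm c f, mul_assoc]
    exact h

theorem mem_Idl {N : ℕ} {d : ℕ} {P Q : Fin N → Fin n → k} {f : MvPolynomial (Fin n) k} :
    f ∈ Idl d P Q ↔ ∀ g, phi P (2 * d - 1) (f * g) = 0 ∧ phi Q (2 * d - 1) (f * g) = 0 := Iff.rfl

theorem homog {N : ℕ} (d : ℕ) (P Q : Fin N → Fin n → k) : R688.GU.IsHomog (Idl d P Q) := by
  intro f hf e
  rw [mem_Idl] at hf ⊢
  intro g
  have key : ∀ R : Fin N → Fin n → k, (∀ g, phi R (2 * d - 1) (f * g) = 0) →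
      phi R (2 * d - 1) (homogeneousComponent e f * g) = 0 := by
    intro R hR
    rw [phi_apply, hc_mul_hom (homogeneousComponent_isHomogeneous e f)]
    split_ifs with h
    · have h1 := hR (homogeneousComponent (2 * d - 1 - e) g)
      rw [phi_apply, mul_comm f, hc_mul_hom (homogeneousComponent_isHomogeneous _ g),
        if_pos (by omega), show 2 * d - 1 - (2 * d - 1 - e) = e by omega] at h1
      rw [← h1]
      refine Finset.sum_congr rfl fun i _ => ?_
      rw [mul_comm]
    · simp
  exact ⟨key P fun g => (hf g).1, key Q fun g => (hf g).2⟩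

theorem eq_zero_of_deg {N : ℕ} {d : ℕ} {P Q : Fin N → Fin n → k} (h : Good d N P Q) (hd : 1 ≤ d)
    {f : MvPolynomial (Fin n) k} (hf : f ∈ Idl d P Q) (hfd : f.IsHomogeneous d) : f = 0 := by
  have key : ∀ R : Fin N → Fin n → k, (∀ u : Fin N → k, ∃ g : MvPolynomial (Fin n) k,
      g.IsHomogeneous (d - 1) ∧ ∀ i, evp (R i) g = u i) →
      (∀ g, phi R (2 * d - 1) (f * g) = 0) → ∀ i, evp (R i) f = 0 := by
    intro R hR h0 i
    obtain ⟨g, hg, hgv⟩ := hR (Pi.single i 1)
    have h1 := h0 g
    rw [show 2 * d - 1 = d + (d - 1) by omega, phi_mul R hfd hg] at h1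
    rw [Finset.sum_eq_single i] at h1
    · rwa [hgv i, Pi.single_eq_same, mul_one] at h1
    · intro j _ hj
      rw [hgv j, Pi.single_eq_of_ne hj, mul_zero]
    · intro h2
      exact absurd (Finset.mem_univ _) h2
  exact h.inj f hfd (key P h.surjP fun g => (hf g).1) (key Q h.surjQ fun g => (hf g).2)

theorem eq_zero_of_le {N : ℕ} {d : ℕ} {P Q : Fin N → Fin n → k} (h : Good d N P Q) (hd : 1 ≤ d)
    (hn : 0 < n) {e : ℕ} (he : e ≤ d)
    {f : MvPolynomial (Fin n) k} (hf : f ∈ Idl d P Q) (hfd : f.IsHomogeneous e) : f = 0 := by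
  have h1 : X (⟨0, hn⟩ : Fin n) ^ (d - e) * f = 0 := by
    refine eq_zero_of_deg h hd (Ideal.mul_mem_left _ _ hf) ?_
    have h2 := ((isHomogeneous_X k (⟨0, hn⟩ : Fin n)).pow (d - e)).mul hfd
    rwa [show 1 * (d - e) + e = d by omega] at h2
  rcases mul_eq_zero.1 h1 with h2 | h2
  · exact absurd h2 (pow_ne_zero _ (X_ne_zero _))
  · exact h2

/-- the components of small degree of the elements of the ideal vanish -/
theorem hc_eq_zero {N : ℕ} {d : ℕ} {P Q : Fin N → Fin n → k} (h : Good d N P Q) (hd : 1 ≤ d)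
    (hn : 0 < n) {e : ℕ} (he : e ≤ d) {f : MvPolynomial (Fin n) k} (hf : f ∈ Idl d P Q) :
    homogeneousComponent e f = 0 :=
  eq_zero_of_le h hd hn he (homog d P Q f hf e) (homogeneousComponent_isHomogeneous e f)

/-- the elements without components of small degree are in the ideal -/
theorem mem_of_hc {N : ℕ} {d : ℕ} (hd : 1 ≤ d) {P Q : Fin N → Fin n → k}
    {f : MvPolynomial (Fin n) k} (hf : ∀ e < 2 * d, homogeneousComponent e f = 0) :
    f ∈ Idl d P Q := by
  have key : ∀ R : Fin N → Fin n → k, ∀ g, phi R (2 * d - 1) (f * g) = 0 := by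
    intro R g
    rw [phi_apply, hc_mul]
    refine Finset.sum_eq_zero fun i _ => ?_
    rw [Finset.sum_eq_zero, map_zero]
    intro e he
    rw [Finset.mem_range] at he
    rw [hf e (by omega), zero_mul]
  exact fun g => ⟨key P g, key Q g⟩

end Pool.Agent.K6.H92.GL
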