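import Pool.Agent.K6.H92.GL.Idl
import Pool.Agent.R688.GU.Crit

set_option autoImplicit false

/-!
# The Koszul complex of the polynomial ring in characteristic zero
-/

open MvPolynomial Module
open Pool.Agent.R688.GU (Kos kd sgn IsHom)

namespace Pool.Agent.K6.H92.GL

variable {k : Type} [Field k] {n : ℕ}

theorem sgn_single (j : Fin n) (u : Finset (Fin n)) :
    sgn {j} u = (-1) ^ (u.filter (· < j)).card := by
  unfold sgn
  congr 1
  rw [Finset.singleton_product, Finset.filter_map, Finset.card_map]
  rfl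

theorem sgn_sq (j : Fin n) (u : Finset (Fin n)) : sgn {j} u * sgn {j} u = 1 := by
  rw [sgn_single, ← pow_add, ← two_mul, pow_mul]
  norm_num

theorem sgn_insert {i j : Fin n} {u : Finset (Fin n)} (hj : j ∉ u) :
    sgn {i} (insert j u) = (if j < i then -1 else 1) * sgn {i} u := by
  rw [sgn_single, sgn_single, Finset.filter_insert]
  split_ifs with h
  · rw [Finset.card_insert_of_notMem (fun h2 => hj (Finset.mem_filter.1 h2).1), pow_succ]
    ring
  · rw [one_mul]

/-- the signs of the two mixed terms are opposite -/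
theorem sgn_swap {j l : Fin n} {u : Finset (Fin n)} (hj : j ∉ u) (hl : l ∉ u) (hjl : j ≠ l) :
    sgn {j} (insert l u) * sgn {l} (insert j u) = - (sgn {l} u * sgn {j} u) := by
  rw [sgn_insert hl, sgn_insert hj]
  rcases lt_or_gt_of_ne hjl with h | h
  · rw [if_neg (not_lt.2 h.le), if_pos h]
    ring
  · rw [if_pos h, if_neg (not_lt.2 h.le)]
    ring

/-- the exterior derivative -/
noncomputable def dR (a : Kos (MvPolynomial (Fin n) k) n) : Kos (MvPolynomial (Fin n) k) n :=
  fun s => ∑ l ∈ s, sgn {l} (s.erase l) • pderiv l (a (s.erase l))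

theorem dR_hom {a : Kos (MvPolynomial (Fin n) k) n} {r : ℕ} (ha : IsHom a r) :
    IsHom (dR a) (r + 1) := by
  intro s hs
  unfold dR at hs
  obtain ⟨l, hl, hl2⟩ := Finset.exists_ne_zero_of_sum_ne_zero hs
  have h1 : a (s.erase l) ≠ 0 := by
    intro h
    rw [h, map_zero, smul_zero] at hl2
    exact hl2 rfl
  have h2 := ha _ h1
  rw [Finset.card_erase_of_mem hl] at h2
  have := Finset.card_pos.2 ⟨l, hl⟩
  omega

theorem homotopy {a : Kos (MvPolynomial (Fin n) k) n} {e : ℕ} (ha : ∀ s, (a s).IsHomogeneous e)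
    (s : Finset (Fin n)) :
    kd (X : Fin n → MvPolynomial (Fin n) k) (dR a) s + dR (kd X a) s = (e + s.card) • a s := by
  have h1 : kd (X : Fin n → MvPolynomial (Fin n) k) (dR a) s =
      ∑ j ∈ sᶜ, (X j * pderiv j (a s) + ∑ l ∈ s, (sgn {j} s * sgn {l} (insert j (s.erase l))) •
        (X j * pderiv l (a (insert j (s.erase l))))) := by
    unfold kd
    refine Finset.sum_congr rfl fun j hj => ?_
    rw [Finset.mem_compl] at hj
    unfold dR
    rw [Finset.sum_insert hj, Finset.erase_insert hj, mul_add, smul_add, mul_smul_comm, smul_smul,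
      sgn_sq, one_smul, Finset.mul_sum, Finset.smul_sum]
    congr 1
    refine Finset.sum_congr rfl fun l hl => ?_
    have hjl : j ≠ l := fun h => hj (h ▸ hl)
    rw [Finset.erase_insert_of_ne hjl, mul_smul_comm, smul_smul]
  have h2 : dR (kd (X : Fin n → MvPolynomial (Fin n) k) a) s =
      ∑ l ∈ s, (a s + X l * pderiv l (a s) + ∑ j ∈ sᶜ, (sgn {l} (s.erase l) *
        sgn {j} (s.erase l)) • (X j * pderiv l (a (insert j (s.erase l))))) := by
    unfold dR
    refine Finset.sum_congr rfl fun l hl => ?_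
    unfold kd
    rw [Finset.compl_erase, Finset.sum_insert (by simpa using hl), Finset.insert_erase hl, map_add,
      smul_add, map_zsmul, smul_smul, sgn_sq, one_smul, pderiv_mul, pderiv_X_self, one_mul,
      map_sum, Finset.smul_sum]
    congr 1
    refine Finset.sum_congr rfl fun j hj => ?_
    have hjl : j ≠ l := by
      rintro rfl
      exact (Finset.mem_compl.1 hj) hl
    rw [map_zsmul, smul_smul, pderiv_mul, pderiv_X_of_ne hjl, zero_mul, zero_add]
  rw [h1, h2, Finset.sum_add_distrib, Finset.sum_add_distrib, Finset.sum_add_distrib]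
  have h3 : ∑ l ∈ s, ∑ j ∈ sᶜ, (sgn {l} (s.erase l) * sgn {j} (s.erase l)) •
      (X j * pderiv l (a (insert j (s.erase l)))) = - ∑ j ∈ sᶜ, ∑ l ∈ s,
      (sgn {j} s * sgn {l} (insert j (s.erase l))) •
        (X j * pderiv l (a (insert j (s.erase l)))) := by
    rw [Finset.sum_comm, ← Finset.sum_neg_distrib]
    refine Finset.sum_congr rfl fun j hj => ?_
    rw [← Finset.sum_neg_distrib]
    refine Finset.sum_congr rfl fun l hl => ?_
    have hj' : j ∉ s := Finset.mem_compl.1 hj
    have hjl : j ≠ l := fun h => hj' (h ▸ hl)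
    have h4 := sgn_swap (j := j) (l := l) (u := s.erase l)
      (fun h => hj' (Finset.mem_of_mem_erase h)) (Finset.notMem_erase l s) hjl
    rw [Finset.insert_erase hl] at h4
    rw [h4, neg_smul, neg_neg]
  rw [h3]
  have h5 := (ha s).sum_X_mul_pderiv
  rw [← Finset.sum_add_sum_compl s] at h5
  rw [add_smul, ← h5, Finset.sum_const]
  abel

/-- the differential commutes with ring homomorphisms -/
theorem kd_map {R R' : Type} [CommRing R] [CommRing R'] (φ : R →+* R') (x : Fin n → R)
    (a : Kos R n) (s : Finset (Fin n)) : kd (fun i => φ (x i)) (fun t => φ (a t)) s = φ (kd x a s) := by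
  unfold kd
  rw [map_sum]
  refine Finset.sum_congr rfl fun j _ => ?_
  rw [map_zsmul, map_mul]

/-- the components of a cycle of the Koszul complex -/
noncomputable def comp (e : ℕ) (a : Kos (MvPolynomial (Fin n) k) n) :
    Kos (MvPolynomial (Fin n) k) n := fun s => homogeneousComponent e (a s)

theorem kd_comp (e : ℕ) (a : Kos (MvPolynomial (Fin n) k) n) (s : Finset (Fin n)) :
    kd X (comp e a) s = homogeneousComponent (e + 1) (kd X a s) := by
  unfold kd comp
  rw [map_sum]
  refine Finset.sum_congr rfl fun j _ => ?_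
  rw [map_zsmul, hc_mul_hom (isHomogeneous_X k j), if_pos (by omega), Nat.add_sub_cancel]

theorem kd_sum {R : Type} [CommRing R] (x : Fin n → R) {ι : Type} (t : Finset ι)
    (a : ι → Kos R n) : kd x (fun s => ∑ i ∈ t, a i s) = fun s => ∑ i ∈ t, kd x (a i) s := by
  funext s
  unfold kd
  rw [Finset.sum_comm]
  refine Finset.sum_congr rfl fun j _ => ?_
  rw [Finset.mul_sum, Finset.smul_sum]

theorem kd_mul {R : Type} [CommRing R] (x : Fin n → R) (c : R) (a : Kos R n) :
    kd x (fun s => c * a s) = fun s => c * kd x a s := by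
  funext s
  unfold kd
  rw [Finset.mul_sum]
  refine Finset.sum_congr rfl fun j _ => ?_
  rw [mul_left_comm, mul_smul_comm]

end Pool.Agent.K6.H92.GL
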