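import Mathlib

set_option autoImplicit false

/-!
# Forms of given degree: dimensions, and points in general position
-/

open MvPolynomial Module

namespace Pool.Agent.K6.H92.GL

variable {k : Type} [Field k] {n : ℕ}

/-- the space of the forms of degree `e` -/
noncomputable abbrev Fo (k : Type) [Field k] (n e : ℕ) : Submodule k (MvPolynomial (Fin n) k) :=
  homogeneousSubmodule (Fin n) k e

theorem mem_anti {e : ℕ} {c : Fin n →₀ ℕ} :
    c ∈ (Finset.univ : Finset (Fin n)).finsuppAntidiag e ↔ c.degree = e := by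
  rw [Finset.mem_finsuppAntidiag, Finsupp.degree_eq_sum]
  simp

/-- coordinates of the forms -/
noncomputable def coords (e : ℕ) :
    Fo k n e ≃ₗ[k] ({c // c ∈ (Finset.univ : Finset (Fin n)).finsuppAntidiag e} → k) where
  toFun f c := coeff c.1 f.1
  map_add' f g := by funext c; simp
  map_smul' a f := by funext c; simp
  invFun u := ⟨∑ c, monomial c.1 (u c), by
    refine Submodule.sum_mem _ fun c _ => ?_
    exact isHomogeneous_monomial _ (mem_anti.1 c.2)⟩
  left_inv f := by
    apply Subtype.ext
    ext c
    simp only [coeff_sum, coeff_monomial]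
    by_cases h : c.degree = e
    · rw [Finset.sum_eq_single (⟨c, mem_anti.2 h⟩ :
        {c // c ∈ (Finset.univ : Finset (Fin n)).finsuppAntidiag e})]
      · simp
      · intro b _ hb
        rw [if_neg]
        intro h2
        exact hb (Subtype.ext h2)
      · intro h2
        exact absurd (Finset.mem_univ _) h2
    · rw [Finset.sum_eq_zero]
      · symm
        by_contra h2
        exact h (by
          have := f.2 h2
          rw [Finsupp.degree_eq_weight_one]
          exact this)
      · intro b _
        rw [if_neg]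
        rintro rfl
        exact h (mem_anti.1 b.2)
  right_inv u := by
    funext c
    simp only [coeff_sum, coeff_monomial]
    rw [Finset.sum_eq_single c]
    · simp
    · intro b _ hb
      rw [if_neg]
      intro h2
      exact hb (Subtype.ext h2)
    · intro h2
      exact absurd (Finset.mem_univ _) h2

theorem finrank_Fo (e : ℕ) : finrank k (Fo k n e) = (n + e - 1).choose e := by
  rw [(coords (k := k) (n := n) e).finrank_eq, finrank_fintype_fun_eq_card, Fintype.card_coe,
    Finset.card_finsuppAntidiag_nat_eq_choose]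
  simp

instance (e : ℕ) : FiniteDimensional k (Fo k n e) :=
  Module.Finite.equiv (coords (k := k) (n := n) e).symm

theorem finrank_le_two {d : ℕ} (hd : 1 ≤ d) (h : n ≤ d + 1) (hn : 1 ≤ n) :
    finrank k (Fo k n d) ≤ 2 * finrank k (Fo k n (d - 1)) := by
  rw [finrank_Fo, finrank_Fo]
  obtain ⟨e, rfl⟩ : ∃ e, d = e + 1 := ⟨d - 1, by omega⟩
  obtain ⟨m, rfl⟩ : ∃ m, n = m + 1 := ⟨n - 1, by omega⟩
  rw [show m + 1 + (e + 1) - 1 = (m + e) + 1 by omega, show m + 1 + (e + 1 - 1) - 1 = m + e by omega,
    show e + 1 - 1 = e by omega]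
  have h1 := Nat.add_one_mul_choose_eq (m + e) e
  have h2 : (m + e + 1) ≤ 2 * (e + 1) := by omega
  nlinarith [Nat.zero_le ((m + e).choose e)]

theorem finrank_lt {d : ℕ} (hd : 1 ≤ d) (hn : 2 ≤ n) :
    finrank k (Fo k n (d - 1)) < finrank k (Fo k n d) := by
  rw [finrank_Fo, finrank_Fo]
  obtain ⟨e, rfl⟩ : ∃ e, d = e + 1 := ⟨d - 1, by omega⟩
  obtain ⟨m, rfl⟩ : ∃ m, n = m + 1 := ⟨n - 1, by omega⟩
  rw [show m + 1 + (e + 1) - 1 = (m + e) + 1 by omega, show m + 1 + (e + 1 - 1) - 1 = m + e by omega,
    show e + 1 - 1 = e by omega, Nat.choose_succ_succ']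
  have : 0 < (m + e).choose (e + 1) := Nat.choose_pos (by omega)
  omega

/-- evaluation at a point, as a linear form -/
noncomputable def evp (x : Fin n → k) : MvPolynomial (Fin n) k →ₗ[k] k := (aeval x).toLinearMap

theorem evp_apply (x : Fin n → k) (f : MvPolynomial (Fin n) k) : evp x f = eval x f := by
  unfold evp
  rw [AlgHom.toLinearMap_apply, aeval_eq_eval]

theorem evp_mul (x : Fin n → k) (f g : MvPolynomial (Fin n) k) :
    evp x (f * g) = evp x f * evp x g := by
  rw [evp_apply, evp_apply, evp_apply, map_mul]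

/-- points in general position for two spaces of polynomials -/
theorem greedy [Infinite k] (N : ℕ) : ∀ (V W : Submodule k (MvPolynomial (Fin n) k))
    [FiniteDimensional k V] [FiniteDimensional k W], finrank k V ≤ N → finrank k W ≤ N →
    ∃ P : Fin N → Fin n → k, (∀ g ∈ V, (∀ i, evp (P i) g = 0) → g = 0) ∧
      ∀ f ∈ W, (∀ i, evp (P i) f = 0) → f = 0 := by
  induction N with
  | zero =>
    intro V W _ _ hV hW
    have hV' : V = ⊥ := Submodule.finrank_eq_zero.1 (by omega)
    have hW' : W = ⊥ := Submodule.finrank_eq_zero.1 (by omega)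
    subst hV' hW'
    exact ⟨fun i => i.elim0, fun g hg _ => (Submodule.mem_bot k).1 hg,
      fun g hg _ => (Submodule.mem_bot k).1 hg⟩
  | succ N ih =>
    intro V W _ _ hV hW
    have hpick : ∀ U : Submodule k (MvPolynomial (Fin n) k), ∃ f : MvPolynomial (Fin n) k,
        f ≠ 0 ∧ (U ≠ ⊥ → f ∈ U) := by
      intro U
      by_cases hU : U = ⊥
      · exact ⟨1, one_ne_zero, fun h => absurd hU h⟩
      · obtain ⟨f, hf, hf0⟩ := (Submodule.ne_bot_iff U).1 hU
        exact ⟨f, hf0, fun _ => hf⟩
    obtain ⟨f, hf0, hf⟩ := hpick V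
    obtain ⟨g, hg0, hg⟩ := hpick W
    obtain ⟨x, hx⟩ : ∃ x : Fin n → k, eval x (f * g) ≠ 0 := by
      by_contra hcon
      push Not at hcon
      apply mul_ne_zero hf0 hg0
      apply MvPolynomial.funext
      intro x
      rw [hcon x, map_zero]
    have hfx : evp x f ≠ 0 := by
      intro h
      apply hx
      rw [map_mul, ← evp_apply, h, zero_mul]
    have hgx : evp x g ≠ 0 := by
      intro h
      apply hx
      rw [map_mul, ← evp_apply x g, h, mul_zero]
    have hdim : ∀ (U : Submodule k (MvPolynomial (Fin n) k)) [FiniteDimensional k U]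
        (u : MvPolynomial (Fin n) k), (U ≠ ⊥ → u ∈ U) → evp x u ≠ 0 → finrank k U ≤ N + 1 →
        finrank k (U ⊓ LinearMap.ker (evp x) : Submodule k _) ≤ N := by
      intro U _ u hu hux hU
      by_cases hbot : U = ⊥
      · subst hbot
        rw [bot_inf_eq, finrank_bot]
        exact Nat.zero_le _
      · have hlt : U ⊓ LinearMap.ker (evp x) < U := by
          refine lt_of_le_of_ne inf_le_left ?_
          intro h
          have h1 := hu hbot
          rw [← h] at h1
          exact hux h1.2
        have := Submodule.finrank_lt_finrank_of_lt hlt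
        omega
    obtain ⟨P, hP1, hP2⟩ := ih (V ⊓ LinearMap.ker (evp x)) (W ⊓ LinearMap.ker (evp x))
      (hdim V f hf hfx hV) (hdim W g hg hgx hW)
    refine ⟨Fin.cons x P, fun u hu h => ?_, fun u hu h => ?_⟩
    · refine hP1 u ⟨hu, ?_⟩ fun i => ?_
      · have := h 0
        rwa [Fin.cons_zero] at this
      · have := h i.succ
        rwa [Fin.cons_succ] at this
    · refine hP2 u ⟨hu, ?_⟩ fun i => ?_
      · have := h 0
        rwa [Fin.cons_zero] at this
      · have := h i.succ
        rwa [Fin.cons_succ] at this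

end Pool.Agent.K6.H92.GL
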