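import Pool.Agent.K6.H92.GL.Lin

set_option autoImplicit false

/-!
# Two sets of points
-/

open MvPolynomial Module

namespace Pool.Agent.K6.H92.GL

variable {k : Type} [Field k] {n : ℕ}

/-- Two families of `N` points, each of which is unisolvent for the forms of degree `d - 1`, such
that no form of degree `d` vanishes at all the points, while some forms of degree `d` vanish at the
points of one of the families. -/
structure Good (d N : ℕ) (P Q : Fin N → Fin n → k) : Prop where
  surjP : ∀ u : Fin N → k, ∃ g : MvPolynomial (Fin n) k, g.IsHomogeneous (d - 1) ∧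
    ∀ i, evp (P i) g = u i
  surjQ : ∀ u : Fin N → k, ∃ g : MvPolynomial (Fin n) k, g.IsHomogeneous (d - 1) ∧
    ∀ i, evp (Q i) g = u i
  inj : ∀ f : MvPolynomial (Fin n) k, f.IsHomogeneous d → (∀ i, evp (P i) f = 0) →
    (∀ i, evp (Q i) f = 0) → f = 0
  kerP : ∃ f : MvPolynomial (Fin n) k, f.IsHomogeneous d ∧ (∀ i, evp (P i) f = 0) ∧ f ≠ 0
  kerQ : ∃ f : MvPolynomial (Fin n) k, f.IsHomogeneous d ∧ (∀ i, evp (Q i) f = 0) ∧ f ≠ 0

/-- the values of the forms of degree `e` at the points -/
noncomputable def evs {N : ℕ} (P : Fin N → Fin n → k) (e : ℕ) : Fo k n e →ₗ[k] (Fin N → k) :=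
  LinearMap.pi fun i => (evp (P i)).comp (Submodule.subtype _)

theorem evs_apply {N : ℕ} (P : Fin N → Fin n → k) (e : ℕ) (f : Fo k n e) (i : Fin N) :
    evs P e f i = evp (P i) f.1 := rfl

theorem surj_of {d N : ℕ} (hN : finrank k (Fo k n (d - 1)) = N) {P : Fin N → Fin n → k}
    (hP : ∀ g ∈ Fo k n (d - 1), (∀ i, evp (P i) g = 0) → g = 0) (u : Fin N → k) :
    ∃ g : MvPolynomial (Fin n) k, g.IsHomogeneous (d - 1) ∧ ∀ i, evp (P i) g = u i := by
  have hinj : Function.Injective (evs P (d - 1)) := by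
    rw [← LinearMap.ker_eq_bot, LinearMap.ker_eq_bot']
    intro g hg
    apply Subtype.ext
    exact hP g.1 g.2 fun i => congrFun hg i
  have hsurj : Function.Surjective (evs P (d - 1)) := by
    rwa [← LinearMap.injective_iff_surjective_of_finrank_eq_finrank]
    rw [hN, finrank_fintype_fun_eq_card, Fintype.card_fin]
  obtain ⟨g, hg⟩ := hsurj u
  exact ⟨g.1, g.2, fun i => congrFun hg i⟩

/-- the values of the forms of degree `d` at the points are arbitrary -/
theorem surj_succ {d N : ℕ} (hd : 2 ≤ d) {P : Fin N → Fin n → k}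
    (hP : ∀ u : Fin N → k, ∃ g : MvPolynomial (Fin n) k, g.IsHomogeneous (d - 1) ∧
      ∀ i, evp (P i) g = u i) : Function.Surjective (evs P d) := by
  classical
  rw [← LinearMap.range_eq_top, ← top_le_iff]
  have h1 : ∀ i : Fin N, (Pi.single i (1 : k) : Fin N → k) ∈ LinearMap.range (evs P d) := by
    intro i
    obtain ⟨g, hg, hgv⟩ := hP (Pi.single i 1)
    obtain ⟨l, hl⟩ : ∃ l, P i l ≠ 0 := by
      by_contra hcon
      push Not at hcon
      have h0 : evp (P i) g = 0 := by
        have h2 : P i = 0 := funext hcon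
        rw [evp_apply, h2]
        rw [MvPolynomial.eval_zero, constantCoeff_eq]
        apply hg.coeff_eq_zero
        rw [map_zero]
        omega
      rw [hgv i, Pi.single_eq_same] at h0
      exact one_ne_zero h0
    refine ⟨⟨C (P i l)⁻¹ * (g * X l), ?_⟩, ?_⟩
    · have h2 : (C (P i l)⁻¹ * (g * X l) : MvPolynomial (Fin n) k).IsHomogeneous (0 + ((d - 1) + 1)) :=
        (isHomogeneous_C _ _).mul (hg.mul (isHomogeneous_X k l))
      rw [show 0 + ((d - 1) + 1) = d by omega] at h2
      exact h2
    · funext j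
      rw [evs_apply]
      change evp (P j) (C (P i l)⁻¹ * (g * X l)) = _
      rw [evp_mul, evp_mul, hgv j, evp_apply, evp_apply, eval_C, eval_X]
      by_cases hj : j = i
      · subst hj
        rw [Pi.single_eq_same, one_mul, inv_mul_cancel₀ hl]
      · rw [Pi.single_eq_of_ne hj, zero_mul, mul_zero]
  intro u _
  have h2 : u = ∑ i, u i • (Pi.single i (1 : k) : Fin N → k) := by
    funext j
    simp [Finset.sum_apply, Pi.single_apply]
  rw [h2]
  exact Submodule.sum_mem _ fun i _ => Submodule.smul_mem _ _ (h1 i)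

theorem exists_good [Infinite k] {d : ℕ} (hd : 2 ≤ d) (hn : 2 ≤ n) (h : n ≤ d + 1) :
    ∃ (N : ℕ) (P Q : Fin N → Fin n → k), Good d N P Q := by
  set N := finrank k (Fo k n (d - 1)) with hN
  obtain ⟨P, hP, -⟩ := greedy (k := k) (n := n) N (Fo k n (d - 1)) ⊥ le_rfl (by simp)
  have hPs := surj_of hN.symm hP
  have hPd := surj_succ hd hPs
  -- the forms of degree `d` which vanish at the points of `P`
  let W : Submodule k (MvPolynomial (Fin n) k) := (LinearMap.ker (evs P d)).map (Submodule.subtype _)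
  have hWf : finrank k W = finrank k (LinearMap.ker (evs P d)) :=
    Submodule.finrank_map_subtype_eq _ _
  have hrk := LinearMap.finrank_range_add_finrank_ker (evs P d)
  rw [LinearMap.range_eq_top.2 hPd, finrank_top, finrank_fintype_fun_eq_card,
    Fintype.card_fin] at hrk
  have hle := finrank_le_two (k := k) (n := n) (d := d) (by omega) h (by omega)
  have hlt := finrank_lt (k := k) (n := n) (d := d) (by omega) hn
  have hWle : finrank k W ≤ N := by omega
  have : FiniteDimensional k W := inferInstance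
  obtain ⟨Q, hQ, hQW⟩ := greedy (k := k) (n := n) N (Fo k n (d - 1)) W le_rfl hWle
  have hQs := surj_of hN.symm hQ
  have hker : ∀ R : Fin N → Fin n → k, ∃ f : MvPolynomial (Fin n) k, f.IsHomogeneous d ∧
      (∀ i, evp (R i) f = 0) ∧ f ≠ 0 := by
    intro R
    have h1 : LinearMap.ker (evs R d) ≠ ⊥ := by
      intro h2
      have h3 := LinearMap.finrank_le_finrank_of_injective (LinearMap.ker_eq_bot.1 h2)
      rw [finrank_fintype_fun_eq_card, Fintype.card_fin] at h3
      omega
    obtain ⟨f, hf, hf0⟩ := (Submodule.ne_bot_iff _).1 h1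
    exact ⟨f.1, f.2, fun i => congrFun hf i, fun h2 => hf0 (Subtype.ext h2)⟩
  refine ⟨N, P, Q, hPs, hQs, fun f hf h1 h2 => ?_, hker P, hker Q⟩
  refine hQW f ?_ h2
  exact Submodule.mem_map.2 ⟨⟨f, hf⟩, funext fun i => h1 i, rfl⟩

end Pool.Agent.K6.H92.GL
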