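import Pool.Agent.K6.H92.GL.Idl
import Pool.Agent.R688.GU.Typ

set_option autoImplicit false

/-!
# The socle and the type
-/

open MvPolynomial Module
open Pool.Agent.R688.GU (xbar mbar maxS typeR depthR IsCMR)

namespace Pool.Agent.K6.H92.GL

variable {k : Type} [Field k] {n : ℕ}

theorem phi_of_mem {N : ℕ} {d : ℕ} {P Q : Fin N → Fin n → k} {f : MvPolynomial (Fin n) k}
    (hf : f ∈ Idl d P Q) : phi P (2 * d - 1) f = 0 ∧ phi Q (2 * d - 1) f = 0 := by
  have h := hf 1
  rwa [mul_one] at h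

theorem exists_u {N d : ℕ} {P Q : Fin N → Fin n → k} (hd : 1 ≤ d)
    (hP : ∀ u : Fin N → k, ∃ g : MvPolynomial (Fin n) k, g.IsHomogeneous (d - 1) ∧
      ∀ i, evp (P i) g = u i)
    (inj : ∀ f : MvPolynomial (Fin n) k, f.IsHomogeneous d → (∀ i, evp (P i) f = 0) →
      (∀ i, evp (Q i) f = 0) → f = 0)
    (hQ : ∃ f : MvPolynomial (Fin n) k, f.IsHomogeneous d ∧ (∀ i, evp (Q i) f = 0) ∧ f ≠ 0) :
    ∃ u : MvPolynomial (Fin n) k, u.IsHomogeneous (2 * d - 1) ∧ phi P (2 * d - 1) u = 1 ∧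
      phi Q (2 * d - 1) u = 0 := by
  obtain ⟨f, hf, hfQ, hf0⟩ := hQ
  obtain ⟨j, hj⟩ : ∃ j, evp (P j) f ≠ 0 := by
    by_contra hcon
    push Not at hcon
    exact hf0 (inj f hf hcon hfQ)
  obtain ⟨g, hg, hgv⟩ := hP (Pi.single j (evp (P j) f)⁻¹)
  have e : 2 * d - 1 = d + (d - 1) := by omega
  refine ⟨f * g, ?_, ?_, ?_⟩
  · rw [e]; exact hf.mul hg
  · rw [e, phi_mul P hf hg, Finset.sum_eq_single j]
    · rw [hgv j, Pi.single_eq_same, mul_inv_cancel₀ hj]
    · intro i _ hi
      rw [hgv i, Pi.single_eq_of_ne hi, mul_zero]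
    · intro h
      exact absurd (Finset.mem_univ _) h
  · rw [e, phi_mul Q hf hg]
    exact Finset.sum_eq_zero fun i _ => by rw [hfQ i, zero_mul]

theorem kill {N d : ℕ} (hd : 1 ≤ d) {P Q : Fin N → Fin n → k} {u : MvPolynomial (Fin n) k}
    (hu : u.IsHomogeneous (2 * d - 1)) (i : Fin n) : X i * u ∈ Idl d P Q := by
  refine mem_of_hc hd fun e he => ?_
  have h1 := (isHomogeneous_X k i).mul hu
  rw [homogeneousComponent_of_mem h1, if_neg (by omega)]

theorem sub_const_mem (g : MvPolynomial (Fin n) k) : g - C (coeff 0 g) ∈ maxS k n := by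
  have h : g - C (coeff 0 g) ∈ (idealOfVars (Fin n) k) ^ 1 := by
    rw [mem_pow_idealOfVars_iff']
    intro c hc
    have h0 : c = 0 := by
      rw [← Finsupp.degree_eq_zero_iff]
      omega
    subst h0
    rw [coeff_sub, coeff_C, if_pos rfl, sub_self]
  rw [pow_one] at h
  exact h

/-- an element which is killed by the variables and by the functionals is zero -/
theorem mem_of_kill {N d : ℕ} {P Q : Fin N → Fin n → k} {G : MvPolynomial (Fin n) k}
    (h : ∀ i, X i * G ∈ Idl d P Q) (hP : phi P (2 * d - 1) G = 0) (hQ : phi Q (2 * d - 1) G = 0) :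
    G ∈ Idl d P Q := by
  intro g
  have h1 : G * (g - C (coeff 0 g)) ∈ Idl d P Q := by
    have h2 : ∀ x ∈ maxS k n, G * x ∈ Idl d P Q := by
      intro x hx
      unfold maxS at hx
      induction hx using Submodule.span_induction with
      | mem w hw =>
        obtain ⟨i, rfl⟩ := hw
        rw [mul_comm]
        exact h i
      | zero => rw [mul_zero]; exact Ideal.zero_mem _
      | add a b _ _ ha hb => rw [mul_add]; exact Ideal.add_mem _ ha hb
      | smul c a _ ha =>
        rw [smul_eq_mul, mul_left_comm]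
        exact Ideal.mul_mem_left _ _ ha
    exact h2 _ (sub_const_mem g)
  have h2 : G * g = G * (g - C (coeff 0 g)) + coeff 0 g • G := by
    rw [smul_eq_C_mul]
    ring
  have h3 := phi_of_mem h1
  rw [h2, map_add, map_add, map_smul, map_smul, h3.1, h3.2, hP, hQ, smul_zero, add_zero]
  exact ⟨rfl, rfl⟩

theorem type_depth {N d : ℕ} {P Q : Fin N → Fin n → k} (hd : 1 ≤ d) (h : Good d N P Q) :
    typeR (Idl d P Q) ≤ 2 ∧ depthR (Idl d P Q) = 0 ∧
      Nontrivial (MvPolynomial (Fin n) k ⧸ Idl d P Q) := by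
  obtain ⟨u, hu, hu1, hu2⟩ := exists_u hd h.surjP h.inj h.kerQ
  obtain ⟨v, hv, hv2, hv1⟩ := exists_u hd h.surjQ (fun f hf h1 h2 => h.inj f hf h2 h1) h.kerP
  have hne : Ideal.Quotient.mk (Idl d P Q) u ≠ 0 := by
    rw [Ne, Ideal.Quotient.eq_zero_iff_mem]
    intro h1
    rw [(phi_of_mem h1).1] at hu1
    exact zero_ne_one hu1
  have hk : ∀ w : MvPolynomial (Fin n) k, w.IsHomogeneous (2 * d - 1) → ∀ i,
      Ideal.Quotient.mk (Idl d P Q) w * xbar (Idl d P Q) i = 0 := by
    intro w hw i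
    change Ideal.Quotient.mk (Idl d P Q) w * Ideal.Quotient.mk (Idl d P Q) (X i) = 0
    rw [← map_mul, mul_comm, Ideal.Quotient.eq_zero_iff_mem]
    exact kill hd hw i
  refine ⟨?_, R688.GU.depthR_eq_zero (hk u hu) hne, ⟨_, _, hne⟩⟩
  have ht := R688.GU.typeR_le (I := Idl d P Q) (m := 2)
    ![Ideal.Quotient.mk _ u, Ideal.Quotient.mk _ v] (by
      intro j i
      fin_cases j
      · exact hk u hu i
      · exact hk v hv i) ⟨0, hne⟩ (by
      intro r hr
      obtain ⟨F, rfl⟩ := Ideal.Quotient.mk_surjective r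
      have h1 : ∀ i, X i * F ∈ Idl d P Q := by
        intro i
        rw [← Ideal.Quotient.eq_zero_iff_mem, map_mul, mul_comm]
        exact hr i
      refine ⟨![Ideal.Quotient.mk _ (C (phi P (2 * d - 1) F)),
        Ideal.Quotient.mk _ (C (phi Q (2 * d - 1) F))], ?_⟩
      have h2 : F - (C (phi P (2 * d - 1) F) * u + C (phi Q (2 * d - 1) F) * v) ∈ Idl d P Q := by
        refine mem_of_kill (fun i => ?_) ?_ ?_
        · have e : X i * (F - (C (phi P (2 * d - 1) F) * u + C (phi Q (2 * d - 1) F) * v)) =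
              X i * F - (C (phi P (2 * d - 1) F) * (X i * u) +
                C (phi Q (2 * d - 1) F) * (X i * v)) := by ring
          rw [e]
          exact Ideal.sub_mem _ (h1 i) (Ideal.add_mem _ (Ideal.mul_mem_left _ _ (kill hd hu i))
            (Ideal.mul_mem_left _ _ (kill hd hv i)))
        · rw [map_sub, map_add, ← smul_eq_C_mul, ← smul_eq_C_mul, map_smul, map_smul, hu1, hv1]
          simp
        · rw [map_sub, map_add, ← smul_eq_C_mul, ← smul_eq_C_mul, map_smul, map_smul, hu2, hv2]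
          simp
      have h3 := Ideal.Quotient.eq_zero_iff_mem.2 h2
      rw [map_sub, map_add, map_mul, map_mul, sub_eq_zero] at h3
      rw [Fin.sum_univ_two]
      exact h3)
  exact_mod_cast ht

end Pool.Agent.K6.H92.GL
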